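import Pool.Agent.H28.SS.Geo
import Pool.Agent.H28.HP.Main

/-!
# The Jordan blocks on the products of almost all varieties with given Newton polygons with
arbitrary varieties
-/

set_option autoImplicit false

universe u v

namespace Pool.Agent.H28.SS

open CategoryTheory AlgebraicGeometry Polynomial TensorProduct NumberField
  Pool.Agent.W521.Frob Pool.Agent.W458.MF Pool.Agent.W458.RK Pool.Agent.H914 Pool.Agent.W534
  Pool.Agent.H281R3.HT Pool.Agent.W536.RR Pool.Agent.TH132.P Pool.Agent.TH132.A Pool.Agent.W552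
  Pool.Agent.H447 VarClass Obj WeilCohomology Pool.Agent.H28.HP

section

variable {k : Type u} [Field k] {𝒱 : VarClass k} {ops : CycleOps 𝒱}
  {W : WeilCohomology.{u, v} ops} {X Y : 𝒱.Obj} {p : ℕ} {Φ : FrobSystem W p}
  {σ : W.K →+* ℂ} {E : Subfield ℂ} {r : ℕ} {I : Type} {n g : I → ℕ} {m : ℕ} {R : ℤ[X]}

/-- **The Tate conjecture for the products with all varieties, from balanced relations.** -/
theorem tateTimes_of_good [IsAlgClosed W.K] (hp : p.Prime) (hm : 0 < m)
    (hRp : aeval (p : ℂ) R = 0) (hg : ∀ i, 0 < g i) {f : I → ℤ[X]}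
    (hf : Good p m n g R E r f)
    (hY : ∀ x : W.H Y, x ∈ algSpan W Y) (P : I → Piece W Y)
    (hP : ∀ i, HasPolynomial (P i) Φ m (n i) (f i)) (X : 𝒱.Obj)
    (hX : IsProductOf ({Y} ∪ Set.range fun i => (P i).obj) X) : TateTimes Φ σ E r X := by
  obtain ⟨h, hh, hbal, hbalE, hsep⟩ := hf
  obtain ⟨R', hR', hR'p, hR'z⟩ := exists_RY (Φ := Φ) hY hRp
  replace hbal := balanced_mono hR'z hbal
  replace hbalE := balancedOver_mono hR'z hbalE
  let P' : I → Piece W Y := fun i => { P i with pol := h i }
  have hQ : ∀ i, (P' i).Q p m = p ^ (n i * m) := fun i => by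
    rw [Piece.Q]
    change p ^ ((P i).obj.dim * m) = _
    rw [(hP i).dim]
  have hQ' : (fun i => (P' i).Q p m) = fun i => p ^ (n i * m) := funext hQ
  have hO : ∀ i, (P' i).IsOver Φ m := fun i =>
    { frobenius := (hP i).frobenius
      sub_le := by
        have h1 := (hP i).sub_le
        rw [← (hP i).dim] at h1
        exact h1
      generated := (hP i).generated
      monic := (hh i).1
      degree_pos := by
        change 0 < (h i).natDegree
        rw [(hh i).2.1]
        exact hg i
      charpoly := by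
        have h1 := (hP i).charpoly
        rw [(hh i).2.2, ← (hP i).dim] at h1
        exact h1 }
  have hbal' : Balanced (fun i => (P' i).Q p m) (fun i => (P' i).pol) R' := by
    rw [hQ']
    exact hbal
  have hbalE' : BalancedOver E r (fun i => (P' i).Q p m) (fun i => (P' i).pol) R' := by
    rw [hQ']
    exact hbalE
  have hsep' : ∀ i, ((weil ((P' i).Q p m) (P' i).pol).map (Int.castRingHom ℚ)).Separable := by
    intro i
    rw [hQ i]
    exact hsep i
  have HG : GSetup Φ σ P' m R' :=
    { hp := hp.one_lt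
      hm := hm
      frob := fun i => (hO i).frobenius
      sub_le := fun i => (hO i).sub_le
      gen := fun i => (hO i).generated
      monic := fun i => (hO i).monic
      span := fun i x hx => Submodule.span_mono (fun v hv => Or.inl hv)
        ((hO i).span_eig (hsep' i) hx)
      uniq := fun i lam x y hx hy => (hO i).eig_unique (hsep' i) hx hy
      hR := hR'
      hRp := hR'p
      bal := hbal'
      sep := hsep' }
  have hX' : IsProductOf ({Y} ∪ Set.range fun i => (P' i).obj) X := hX
  refine tate_times W397.MF.pair W40.MF.span HG hbalE' hY ?_ hX'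
  intro i x hx
  rw [ext_zero' HG i (hO i) hx]
  exact Submodule.zero_mem _

end

variable {I : Type} [Fintype I] {p : ℕ} {n g : I → ℕ} {s : I → ℕ → ℚ} {T : I → Set ℕ}

theorem main (hp : p.Prime) (hs : ∀ i, IsPolygon (n i) (g i) (s i) (T i))
    (E : Subfield ℂ) [NumberField E] (r : ℕ) (hr : ∀ i, r < g i) {ε : ℝ} (hε : 0 < ε) (N : ℕ) :
    ∃ m₀ : ℕ, ∀ m ≥ m₀,
      (∀ i, (weilPolysAbove p m (n i) (g i) (s i) (T i)).Finite ∧
        N ≤ (weilPolysAbove p m (n i) (g i) (s i) (T i)).ncard) ∧
      ({f : I → ℤ[X] | (∀ i, f i ∈ weilPolysAbove p m (n i) (g i) (s i) (T i)) ∧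
        ¬ AllProductsTimes.{u, v} p m n E r f}.ncard : ℝ) ≤
      ε * ∏ i, ((weilPolysAbove p m (n i) (g i) (s i) (T i)).ncard : ℝ) := by
  classical
  obtain ⟨R, hRp, m₀, h⟩ := almost_all_good hp hs E r hr hε
  choose m₁ hm₁ using fun i => ncard_large hp (hs i) N
  refine ⟨1 + m₀ + ∑ i, m₁ i, fun m hm => ⟨fun i => ⟨finite_above hp, hm₁ i m ?_⟩, ?_⟩⟩
  · have := Finset.single_le_sum (f := m₁) (fun j _ => Nat.zero_le _) (Finset.mem_univ i)
    omega
  refine le_trans ?_ (h m (by omega))
  refine Nat.cast_le.2 (Set.ncard_le_ncard ?_ ?_)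
  swap
  · refine (Set.Finite.pi' fun i => finite_above (m := m) (n := n i) (g := g i) (s := s i)
      (T := T i) hp).subset ?_
    rintro f ⟨hf, -⟩
    exact hf
  rintro f ⟨hf, hnot⟩
  refine ⟨hf, fun hgood => hnot ?_⟩
  intro k _ 𝒱 ops W _ σ Φ Y hY P hP X hX
  exact blocksTimes_of_tateTimes hp.one_lt
    (tateTimes_of_good hp (by omega) hRp (fun i => (hs i).pos) hgood hY P hP X hX)

end Pool.Agent.H28.SS
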