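import Pool.Agent.H28.HP.GDefs

/-!
# The Jordan blocks for the Tate eigenvalues on products with arbitrary varieties: definitions
-/

set_option autoImplicit false

universe u v w

namespace Pool.Agent.H28.SS

open CategoryTheory AlgebraicGeometry Polynomial TensorProduct
  Pool.Agent.W458.MF Pool.Agent.W458.RK Pool.Agent.H914 Pool.Agent.W534
  Pool.Agent.H281R3.HT VarClass Obj WeilCohomology

/-- A finite dimensional vector space `V` with an endomorphism `G`, for instance a cohomology group
with compact supports of a variety with its Frobenius endomorphism. -/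
structure FrobSpace (K : Type w) [Field K] where
  V : Type v
  [grp : AddCommGroup V]
  [mod : Module K V]
  [fin : Module.Finite K V]
  G : Module.End K V

attribute [instance] FrobSpace.grp FrobSpace.mod FrobSpace.fin

/-- The dimension of the space of the vectors in `S` which are killed by
`(T ^ M - (Q ^ j) ^ M) ^ b` for some `M > 0`. If `S` is stable under `T` and `M` is sufficiently
divisible, then `blockDim T Q j b S` is the sum of the numbers `min (size, b)` over the Jordan
blocks of `T ^ M` on `S` for the eigenvalue `Q ^ (j M)`; so these numbers for all `b` determine the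
sizes of the blocks (the number of the blocks of size at least `b` is the difference of the numbers
for `b` and for `b - 1`). -/
noncomputable def blockDim {K V : Type*} [Field K] [AddCommGroup V] [Module K V]
    (T : Module.End K V) (Q : K) (j : ℤ) (b : ℕ) (S : Submodule K V) : ℕ :=
  Module.finrank K (Submodule.span K {x | x ∈ S ∧ Killed T (Q ^ j) b x})

/-- For all `N > 0` the eigenvalue `Q ^ (j N)` of `T ^ N` is semisimple on `S`: the vectors in `S`
which are killed by `(T ^ N - Q ^ (j N)) ^ 2` are killed by `T ^ N - Q ^ (j N)`. -/
def SemisimpleOn {K V : Type*} [Field K] [AddCommGroup V] [Module K V] (T : Module.End K V)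
    (Q : K) (j : ℕ) (S : Submodule K V) : Prop :=
  ∀ N : ℕ, 0 < N → ∀ x ∈ S, ((T ^ N - ((Q ^ j) ^ N) • (1 : Module.End K V)) ^ 2) x = 0 →
    (T ^ N - ((Q ^ j) ^ N) • (1 : Module.End K V)) x = 0

/-- The statement `SS_j (U)` over all finite extensions of the field with `Q` elements, for a
variety `U` over this field with the cohomology groups `U m = H_c ^ m (U)` with compact supports
(the homology is dual to the cohomology with compact supports): the eigenvalue `Q ^ (j N)` of the
`N`-th power of the Frobenius endomorphism on `H_c ^ (2 j) (U)` is semisimple for all `N > 0`. -/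
def SSOver {K : Type w} [Field K] (U : ℕ → FrobSpace.{v} K) (Q : K) (j : ℕ) : Prop :=
  SemisimpleOn (U (2 * j)).G Q j ⊤

section

variable {K : Type w} [Field K] {H : Type v} [AddCommGroup H] [Module K H]

/-- The subspace `S ⊗ V` of `H ⊗ V`. -/
def inDegree (S : Submodule K H) (U : FrobSpace.{v} K) : Submodule K (H ⊗[K] U.V) :=
  LinearMap.range (S.subtype.rTensor U.V)

/-- The Frobenius endomorphism `F ⊗ G` of `H ⊗ V`. -/
noncomputable def tensorEnd (F : Module.End K H) (U : FrobSpace.{v} K) :
    Module.End K (H ⊗[K] U.V) :=
  TensorProduct.map F U.G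

/-- The statement `SS_c (X × U)` over all finite extensions, for `X` smooth and projective, with
`gr a = H ^ a (X)` and the Frobenius endomorphism `F` of `H = H(X)`, and `U` as in `SSOver`. By the
formula of Künneth `H_c ^ (2 c) (X × U)` is the direct sum of the spaces
`H ^ a (X) ⊗ H_c ^ m (U)` with `a + m = 2 c`: for all `N > 0` the eigenvalue `Q ^ (c N)` of the
`N`-th power of the Frobenius endomorphism is semisimple on all these spaces. -/
def SSProduct (gr : ℕ → Submodule K H) (F : Module.End K H) (Q : K) (U : ℕ → FrobSpace.{v} K)
    (c : ℕ) : Prop :=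
  ∀ a m : ℕ, a + m = 2 * c → SemisimpleOn (tensorEnd F (U m)) Q c (inDegree (gr a) (U m))

/-- The Jordan blocks for the product of a smooth projective variety `X` of dimension `d` over the
field with `Q` elements, with `gr a = H ^ a (X)`, the Frobenius endomorphism `F` of `H = H(X)` and
the ranks `rk i`, and of a variety `U` over the same field with `U m = H_c ^ m (U)`:

* for all `a`, `m`, for all integers `c` and all `b`, the space of the vectors in
  `H ^ a (X) ⊗ H_c ^ m (U)` which are killed by `((F ⊗ G) ^ M - Q ^ (c M)) ^ b` for some `M > 0`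
  is zero if `a` is odd, and if `a = 2 i` then its dimension is the product of `rk i` and of the
  dimension of the space of the vectors in `H_c ^ m (U)` which are killed by
  `(G ^ M - Q ^ ((c - i) M)) ^ b` for some `M > 0`;
* for all `c` the statement `SS_c (X × U)` holds if and only if `SS_j (U)` holds for all
  `i + j = c` such that `rk i` is not zero. -/
def Blocks (gr : ℕ → Submodule K H) (F : Module.End K H) (Q : K) (d : ℕ) (rk : ℕ → ℕ)
    (U : ℕ → FrobSpace.{v} K) : Prop :=
  (∀ (a m : ℕ) (c : ℤ) (b : ℕ),
    (Odd a → blockDim (tensorEnd F (U m)) Q c b (inDegree (gr a) (U m)) = 0) ∧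
    ∀ i ≤ d, a = 2 * i → blockDim (tensorEnd F (U m)) Q c b (inDegree (gr a) (U m)) =
      rk i * blockDim (U m).G Q (c - i) b ⊤) ∧
  ∀ c : ℕ, SSProduct gr F Q U c ↔ ∀ i ≤ d, ∀ j, i + j = c → rk i ≠ 0 → SSOver U Q j

end

/-- The formulas `Blocks` for the products of `X` with **all** varieties `U` (singular, not proper,
reducible) over the field with `Q = p ^ (Φ.e X * s)` elements, given by the cohomology groups
`U m = H_c ^ m (U)` with compact supports, such that the eigenvalues of the Frobenius endomorphisms
of these groups have rank at most `r` over `E`. Here `rk i` is the rank of the group of the cycles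
of codimension `i` on `X` modulo numerical equivalence. -/
def BlocksTimes {k : Type u} [Field k] {𝒱 : VarClass k} {ops : CycleOps 𝒱}
    {W : WeilCohomology.{u, v} ops} {p : ℕ} (Φ : FrobSystem W p) (σ : W.K →+* ℂ) (E : Subfield ℂ)
    (r : ℕ) (X : 𝒱.Obj) : Prop :=
  ∀ s : ℕ, 0 < s → ∀ U : ℕ → FrobSpace.{v} W.K, (∀ m, EigenvaluesOfRank σ E r (U m).G) →
    Blocks (W.gr X) (W.map (W534.iter (Φ.Fr X) s)).toLinearMap ((p : W.K) ^ (Φ.e X * s)) X.dim
      (numRank ops X) U

/-- For every Weil cohomology `W` with algebraically closed coefficients for varieties over a field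
`k`, for every system `Φ` of Frobenius endomorphisms in characteristic `p` (so `k` is an algebraic
closure of a finite field), for every variety `Y` whose cohomology is spanned by algebraic classes,
and all varieties `P i` over `Y` of dimension `n i` with a model over the field with `p ^ m`
elements, whose cohomology is the sum of the pull-back of the cohomology of `Y` and of a subspace
of the cohomology of degree `n i`, on which the Frobenius endomorphism has the characteristic
polynomial `f i`: **all** products `X` of copies of `Y` and of the varieties `P i` satisfy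
`BlocksTimes`. -/
def AllProductsTimes {I : Type} (p m : ℕ) (n : I → ℕ) (E : Subfield ℂ) (r : ℕ) (f : I → ℤ[X]) :
    Prop :=
  ∀ {k : Type u} [Field k] {𝒱 : VarClass k} {ops : CycleOps 𝒱}
    (W : WeilCohomology.{u, v} ops) [IsAlgClosed W.K] (σ : W.K →+* ℂ) (Φ : FrobSystem W p)
    (Y : 𝒱.Obj), (∀ x : W.H Y, x ∈ algSpan W Y) →
      ∀ P : I → Piece W Y, (∀ i, Pool.Agent.H28.HP.HasPolynomial (P i) Φ m (n i) (f i)) →
        ∀ X : 𝒱.Obj, IsProductOf ({Y} ∪ Set.range fun i => (P i).obj) X →
          BlocksTimes Φ σ E r X

end Pool.Agent.H28.SS
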