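import Pool.Agent.H28.SS.Lin
import Pool.Agent.H28.HP.Geo

/-!
# The Jordan blocks for the Tate eigenvalues on products with arbitrary varieties
-/

set_option autoImplicit false

universe u v

namespace Pool.Agent.H28.SS

open CategoryTheory AlgebraicGeometry Polynomial TensorProduct NumberField
  Pool.Agent.W521.Frob Pool.Agent.W458.MF Pool.Agent.W458.RK Pool.Agent.H914 Pool.Agent.W534
  Pool.Agent.H281R3.HT Pool.Agent.W536.RR Pool.Agent.TH132.P Pool.Agent.TH132.A Pool.Agent.W552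
  Pool.Agent.H447 VarClass Obj WeilCohomology Pool.Agent.H28.HP

variable {k : Type u} [Field k] {𝒱 : VarClass k} {ops : CycleOps 𝒱}
  {W : WeilCohomology.{u, v} ops} {X Y : 𝒱.Obj} {p : ℕ} {Φ : FrobSystem W p}
  {σ : W.K →+* ℂ} {E : Subfield ℂ} {r : ℕ}

/-- The functionals of the dual family. -/
noncomputable def fun_ (W : WeilCohomology.{u, v} ops) (X : 𝒱.Obj) (b : W.H X) : W.H X →ₗ[W.K] W.K :=
  (W.tr X) ∘ₗ LinearMap.mulRight W.K b

lemma fun_apply (b x : W.H X) : fun_ W X b x = W.tr X (x * b) := rfl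

/-- Homogeneous elements of the span of the family. -/
lemma HFam.mem_span_deg {κ : Type} [Fintype κ] [DecidableEq κ] {e b : κ → W.H X} {d : κ → ℕ}
    (h : HFam W X e b d) (i : ℕ) {y : W.H X} (hy : y ∈ spanCycles W X (i : ℕ)) :
    y ∈ Submodule.span W.K {z | ∃ k, d k = i ∧ z = e k} := by
  classical
  have h1 := h.span i y hy
  rw [Submodule.mem_span_range_iff_exists_fun] at h1
  obtain ⟨c, hc⟩ := h1
  have h2 : ∀ l, d l ≠ i → c l = 0 := by
    intro l hl
    have h3 : W.tr X (y * b l) = c l := by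
      rw [← hc, Finset.sum_mul, map_sum, Finset.sum_eq_single l]
      · rw [smul_mul_assoc, map_smul, h.dual, if_pos rfl, smul_eq_mul, mul_one]
      · intro k _ hkl
        rw [smul_mul_assoc, map_smul, h.dual, if_neg hkl, smul_zero]
      · intro h0
        exact absurd (Finset.mem_univ _) h0
    rw [← h3]
    refine W.tr_eq_zero (W.mul_mem (H914.span_gr hy) (H914.span_gr (h.hb l))) ?_
    have := h.hd l
    intro h4
    apply hl
    omega
  rw [← hc]
  refine Submodule.sum_mem _ fun l _ => ?_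
  by_cases hl : d l = i
  · exact Submodule.smul_mem _ _ (Submodule.subset_span ⟨l, hl, rfl⟩)
  · rw [h2 l hl, zero_smul]
    exact Submodule.zero_mem _

section

variable {κ : Type} [Fintype κ] [DecidableEq κ] {e b : κ → W.H X} {d : κ → ℕ}
  {U : FrobSpace.{v} W.K} {s : ℕ} {c : ℤ} {l : ℕ}

/-- The killed vectors of a given degree. -/
lemma killed_deg (h : HFam W X e b d) (hT : TateTimes Φ σ E r X) (hs : 0 < s)
    (hG : EigenvaluesOfRank σ E r U.G) {a : ℕ} {x : W.H X ⊗[W.K] U.V}
    (hxa : x ∈ inDegree (W.gr X a) U)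
    (hx : Killed (tensorEnd (W.map (W534.iter (Φ.Fr X) s)).toLinearMap U)
      (((p : W.K) ^ (Φ.e X * s)) ^ c) l x) :
    ∃ v : κ → U.V, (∀ k, Killed U.G (((p : W.K) ^ (Φ.e X * s)) ^ (c - d k)) l (v k)) ∧
      (∀ k, 2 * d k ≠ a → v k = 0) ∧ x = ∑ k, e k ⊗ₜ[W.K] v k := by
  have h1 := hT s hs U.V U.G hG
  obtain ⟨v, hv, hxv⟩ := killed_combination (d := d) (e := e)
    (A := fun i => {y | ∃ z, X.IsCyc i z ∧ y = W.cl X z})
    (fun x hx => (h1 c l x).1 hx) (fun i y hy => by
      refine HFam.mem_span_deg h i ?_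
      obtain ⟨z, hz, rfl⟩ := hy
      rw [spanCycles_eq]
      exact Submodule.subset_span ⟨z, hz, rfl⟩) hx
  refine ⟨v, hv, fun k hk => ?_, hxv⟩
  have hdual : ∀ k l, fun_ W X (b l) (e k) = if k = l then 1 else 0 := fun k l => h.dual k l
  rw [← coeff_sum (K := W.K) (φ := fun k => fun_ W X (b k)) hdual v k, ← hxv]
  refine lid_zero (S := W.gr X a) ?_ hxa
  intro y hy
  refine W.tr_eq_zero (W.mul_mem hy (H914.span_gr (h.hb k))) ?_
  have := h.hd k
  intro h4
  apply hk
  omega

lemma card_deg (h : HFam W X e b d) (hD : HomEqNum W X) {i : ℕ} (hi : i ≤ X.dim) :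
    Fintype.card {k // d k = i} = numRank ops X i := by
  rw [numRank_of_D hD hi, ← h.cnt i, Fintype.card_subtype]

lemma killed_e (h : HFam W X e b d) (s : ℕ) (k : κ) :
    Killed (W.map (W534.iter (Φ.Fr X) s)).toLinearMap
      (((p : W.K) ^ (Φ.e X * s)) ^ (d k)) 1 (e k) := by
  have h1 := h.he k
  rw [spanCycles_eq] at h1
  have h2 : e k ∈ cycSub W X (d k) := by
    refine Submodule.span_mono ?_ h1
    rintro _ ⟨z, hz, rfl⟩
    exact ⟨z, hz, rfl⟩
  have h3 := cyc_killed Φ (s := s) h2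
  rw [W534.card, Nat.cast_pow] at h3
  exact h3

/-- **The dimensions in odd degrees.** -/
theorem blockDim_odd (h : HFam W X e b d) (hT : TateTimes Φ σ E r X) (hs : 0 < s)
    (hG : EigenvaluesOfRank σ E r U.G) {a : ℕ} (ha : Odd a) :
    blockDim (tensorEnd (W.map (W534.iter (Φ.Fr X) s)).toLinearMap U)
      ((p : W.K) ^ (Φ.e X * s)) c l (inDegree (W.gr X a) U) = 0 := by
  rw [blockDim]
  have h0 : Submodule.span W.K {x | x ∈ inDegree (W.gr X a) U ∧
      Killed (tensorEnd (W.map (W534.iter (Φ.Fr X) s)).toLinearMap U)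
        (((p : W.K) ^ (Φ.e X * s)) ^ c) l x} = ⊥ := by
    rw [Submodule.span_eq_bot]
    rintro x ⟨hxa, hx⟩
    obtain ⟨v, -, hv, rfl⟩ := killed_deg h hT hs hG hxa hx
    refine Finset.sum_eq_zero fun k _ => ?_
    rw [hv k, TensorProduct.tmul_zero]
    intro h1
    exact (Nat.not_even_iff_odd.2 ha) ⟨d k, by omega⟩
  rw [h0, finrank_bot]

/-- **The dimensions in even degrees.** -/
theorem blockDim_even (hp : (p : W.K) ≠ 0) (h : HFam W X e b d) (hD : HomEqNum W X)
    (hT : TateTimes Φ σ E r X) (hs : 0 < s)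
    (hG : EigenvaluesOfRank σ E r U.G) {i : ℕ} (hi : i ≤ X.dim) :
    blockDim (tensorEnd (W.map (W534.iter (Φ.Fr X) s)).toLinearMap U)
      ((p : W.K) ^ (Φ.e X * s)) c l (inDegree (W.gr X (2 * i)) U) =
      numRank ops X i * blockDim U.G ((p : W.K) ^ (Φ.e X * s)) (c - i) l ⊤ := by
  have hQ : (p : W.K) ^ (Φ.e X * s) ≠ 0 := pow_ne_zero _ hp
  have hdual : ∀ k l, fun_ W X (b l) (e k) = if k = l then 1 else 0 := fun k l => h.dual k l
  set L := killedSub U.G (((p : W.K) ^ (Φ.e X * s)) ^ (c - i)) l with hL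
  have h0 : Submodule.span W.K {x | x ∈ inDegree (W.gr X (2 * i)) U ∧
      Killed (tensorEnd (W.map (W534.iter (Φ.Fr X) s)).toLinearMap U)
        (((p : W.K) ^ (Φ.e X * s)) ^ c) l x} = LinearMap.range (psi e d i L) := by
    apply le_antisymm
    · rw [Submodule.span_le]
      rintro x ⟨hxa, hx⟩
      obtain ⟨v, hv1, hv, rfl⟩ := killed_deg h hT hs hG hxa hx
      refine ⟨fun k => ⟨v k.1, ?_⟩, ?_⟩
      · have := hv1 k.1
        rw [k.2] at this
        exact this
      · change ∑ k : {k // d k = i}, e k.1 ⊗ₜ[W.K] v k.1 = _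
        rw [← Finset.sum_subtype (Finset.univ.filter fun k => d k = i) (by simp)
          (fun k => e k ⊗ₜ[W.K] v k)]
        refine Finset.sum_subset (Finset.filter_subset _ _) fun k _ hk => ?_
        rw [hv k, TensorProduct.tmul_zero]
        intro h1
        apply hk
        rw [Finset.mem_filter]
        exact ⟨Finset.mem_univ _, by omega⟩
    · rintro _ ⟨v, rfl⟩
      change ∑ k : {k // d k = i}, e k.1 ⊗ₜ[W.K] (v k : U.V) ∈ _
      refine Submodule.sum_mem _ fun k _ => Submodule.subset_span ⟨?_, ?_⟩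
      · have h1 := H914.span_gr (h.he k.1)
        rw [k.2] at h1
        exact tmul_mem h1 _
      · have h1 := killed_e (Φ := Φ) h s k.1
        rw [k.2] at h1
        exact killed_tensor hQ h1 (v k).2
  rw [blockDim, h0, LinearMap.finrank_range_of_inj (psi_injective hdual i L),
    Module.finrank_pi_fintype, Finset.sum_const, Finset.card_univ, card_deg h hD hi, smul_eq_mul,
    blockDim_eq, top_inf_eq]

end

/-- **The blocks for the products with all varieties of small rank.** -/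
theorem blocksTimes_of_tateTimes [IsAlgClosed W.K] (hp : 1 < p) (hT : TateTimes Φ σ E r X) :
    BlocksTimes Φ σ E r X := by
  intro s hs U hG
  have hp0 : (p : W.K) ≠ 0 := Nat.cast_ne_zero.2 (by omega)
  have hQ : (p : W.K) ^ (Φ.e X * s) ≠ 0 := pow_ne_zero _ hp0
  have hD := homEqNum_of_tateTimes hp hT
  obtain ⟨κ, _, _, e, b, d, h⟩ := exists_hFam hD
  refine ⟨fun a m c l => ⟨fun ha => blockDim_odd h hT hs (hG m) ha, ?_⟩, fun c => ⟨?_, ?_⟩⟩
  · rintro i hi rfl
    exact blockDim_even hp0 h hD hT hs (hG m) hi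
  · rintro hss i hi j rfl hnum N hN v - hv
    obtain ⟨k, hk⟩ : ∃ k, d k = i := by
      by_contra hno
      push Not at hno
      apply hnum
      rw [← card_deg h hD hi, Fintype.card_eq_zero_iff]
      exact ⟨fun k => hno k.1 k.2⟩
    have hek := killed_e (Φ := Φ) h s k
    rw [hk] at hek
    obtain ⟨M, hM, hy⟩ := killed_one_iff.1 hek
    have hy' : ((W.map (W534.iter (Φ.Fr X) s)).toLinearMap ^ (M * N)) (e k) =
        (((p : W.K) ^ (Φ.e X * s)) ^ i) ^ (M * N) • e k := by
      rw [pow_mul, pow_mul, Module.End.pow_apply]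
      exact Pool.Agent.W534.iterate_eig (fun a x =>
        map_smul ((W.map (W534.iter (Φ.Fr X) s)).toLinearMap ^ M) a x) hy N
    have hij : ((p : W.K) ^ (Φ.e X * s)) ^ i * ((p : W.K) ^ (Φ.e X * s)) ^ j =
        ((p : W.K) ^ (Φ.e X * s)) ^ (i + j) := by
      rw [← pow_add]
    have hmem : e k ∈ W.gr X (2 * i) := by
      have h1 := H914.span_gr (h.he k)
      rwa [hk] at h1
    have h2 := killed_mul hv M
    rw [mul_comm N M] at h2
    have h3 := hss (2 * i) (2 * j) (by ring) (M * N) (Nat.mul_pos hM hN) (e k ⊗ₜ v)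
      (tmul_mem hmem v) (by
        rw [← hij, tensorEnd, killed_tmul hy', h2, TensorProduct.tmul_zero, smul_zero])
    have h4 := killed_tmul (G := (U (2 * j)).G) (β := ((p : W.K) ^ (Φ.e X * s)) ^ j) hy' 1 v
    rw [hij, pow_one] at h4
    rw [tensorEnd] at h3
    rw [h3, pow_one, pow_one] at h4
    have h5 : (e k) ⊗ₜ[W.K] (((U (2 * j)).G ^ (M * N) -
        ((((p : W.K) ^ (Φ.e X * s)) ^ j) ^ (M * N)) • (1 : Module.End W.K (U (2 * j)).V)) v) =
          0 := (smul_eq_zero.1 h4.symm).resolve_left (pow_ne_zero _ (pow_ne_zero _ hQ))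
    have h6 := congrArg (fun x => TensorProduct.lid W.K (U (2 * j)).V
      (LinearMap.rTensor (U (2 * j)).V (fun_ W X (b k)) x)) h5
    simp only [LinearMap.rTensor_tmul, TensorProduct.lid_tmul, map_zero] at h6
    rw [fun_apply, h.dual, if_pos rfl, one_smul] at h6
    refine zero_of_killed (pow_ne_zero _ hQ) hv ⟨M * N, Nat.mul_pos hM hN, ?_⟩
    rw [pow_one]
    exact h6
  · rintro hss a m ham N hN x hxa hx
    have hx' : Killed (tensorEnd (W.map (W534.iter (Φ.Fr X) s)).toLinearMap (U m))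
        (((p : W.K) ^ (Φ.e X * s)) ^ (c : ℤ)) 2 x := by
      refine ⟨N, hN, ?_⟩
      rw [zpow_natCast]
      exact hx
    obtain ⟨v, hv1, hv2, hxv⟩ := killed_deg h hT hs (hG m) hxa hx'
    refine zero_of_killed (pow_ne_zero _ hQ) hx ?_
    have key : Killed (tensorEnd (W.map (W534.iter (Φ.Fr X) s)).toLinearMap (U m))
        (((p : W.K) ^ (Φ.e X * s)) ^ (c : ℤ)) 1 x := by
      rw [hxv]
      refine (killedSub _ _ 1).sum_mem fun k _ => ?_
      by_cases hk : 2 * d k = a
      · refine killed_tensor hQ (killed_e (Φ := Φ) h s k) ?_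
        have hdc : d k ≤ c := by omega
        obtain ⟨j, rfl⟩ : ∃ j, c = d k + j := ⟨c - d k, by omega⟩
        obtain rfl : m = 2 * j := by omega
        have h1 := hss (d k) (h.hd k) j rfl (by
          rw [← card_deg h hD (h.hd k)]
          exact (Fintype.card_pos_iff.2 ⟨⟨k, rfl⟩⟩).ne')
        have e1 : (((d k + j : ℕ) : ℤ) - (d k : ℤ)) = (j : ℤ) := by push_cast; ring
        have h2 := hv1 k
        rw [e1] at h2 ⊢
        exact killed_of_semisimple h1 h2
      · rw [hv2 k hk, TensorProduct.tmul_zero]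
        exact (killedSub _ _ 1).zero_mem
    rwa [zpow_natCast] at key

end Pool.Agent.H28.SS
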