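import Pool.Agent.H28.SS.Defs
import Pool.Graph.R_seed8.W458.RK.Final

/-!
# The Jordan blocks for the Tate eigenvalues: linear algebra
-/

set_option autoImplicit false

universe u v

namespace Pool.Agent.H28.SS

open Polynomial TensorProduct Pool.Agent.W458.MF Pool.Agent.W458.RK

section

variable {K V : Type*} [Field K] [AddCommGroup V] [Module K V] {T : Module.End K V}

/-- The killed vectors of a subspace form a subspace. -/
lemma blockDim_eq (T : Module.End K V) (Q : K) (j : ℤ) (b : ℕ) (S : Submodule K V) :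
    blockDim T Q j b S = Module.finrank K (S ⊓ killedSub T (Q ^ j) b : Submodule K V) := by
  rw [blockDim]
  have h : ({x | x ∈ S ∧ Killed T (Q ^ j) b x} : Set V) =
      ((S ⊓ killedSub T (Q ^ j) b : Submodule K V) : Set V) := rfl
  rw [h, Submodule.span_eq]

lemma killed_of_semisimple {Q : K} {j : ℕ} (h : SemisimpleOn T Q j ⊤) {v : V}
    (hv : Killed T (Q ^ (j : ℤ)) 2 v) : Killed T (Q ^ (j : ℤ)) 1 v := by
  rw [zpow_natCast] at hv ⊢
  obtain ⟨M, hM, h1⟩ := hv
  refine ⟨M, hM, ?_⟩
  rw [pow_one]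
  exact h M hM v Submodule.mem_top h1

/-- If the eigenvalue is semisimple over an extension, then it is semisimple. -/
lemma zero_of_killed [CharZero K] {μ : K} (hμ : μ ≠ 0) {N : ℕ} {x : V}
    (hx : ((T ^ N - (μ ^ N) • (1 : Module.End K V)) ^ 2) x = 0) (h : Killed T μ 1 x) :
    (T ^ N - (μ ^ N) • (1 : Module.End K V)) x = 0 := by
  obtain ⟨M, hM, h3⟩ := killed_one_iff.1 h
  refine eig_of_pow (pow_ne_zero _ hμ) hx hM ?_
  rw [← pow_mul, mul_comm N M, pow_mul, Module.End.pow_apply,
    Pool.Agent.W534.iterate_eig (fun a x => map_smul (T ^ M) a x) h3 N, ← pow_mul, ← pow_mul,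
    mul_comm M N]

end

section

variable {K H V : Type*} [Field K] [AddCommGroup H] [Module K H] [AddCommGroup V] [Module K V]
  {F : Module.End K H} {G : Module.End K V} {κ : Type} [Fintype κ] [DecidableEq κ]
  {e : κ → H} {φ : κ → (H →ₗ[K] K)} {d : κ → ℕ} {Q : K} {c : ℤ} {b : ℕ}

/-- The coefficients of a combination. -/
lemma coeff_sum (hdual : ∀ k l, φ l (e k) = if k = l then 1 else 0) (v : κ → V) (l : κ) :
    TensorProduct.lid K V (LinearMap.rTensor V (φ l) (∑ k, e k ⊗ₜ[K] v k)) = v l := by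
  rw [map_sum, map_sum, Finset.sum_eq_single l]
  · rw [LinearMap.rTensor_tmul, TensorProduct.lid_tmul, hdual, if_pos rfl, one_smul]
  · intro k _ hkl
    rw [LinearMap.rTensor_tmul, TensorProduct.lid_tmul, hdual, if_neg hkl, zero_smul]
  · intro h0
    exact absurd (Finset.mem_univ _) h0

lemma killed_tensor (hQ : Q ≠ 0) {i : ℕ} {y : H} (hy : Killed F (Q ^ i) 1 y) {v : V}
    (hv : Killed G (Q ^ (c - i)) b v) : Killed (TensorProduct.map F G) (Q ^ c) b (y ⊗ₜ[K] v) := by
  obtain ⟨N, hN, hv⟩ := hv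
  obtain ⟨M, hM, hy⟩ := killed_one_iff.1 hy
  have hQi : Q ^ i * Q ^ (c - i) = Q ^ c := by
    rw [← zpow_natCast, ← zpow_add₀ hQ]
    congr 1
    ring
  refine ⟨M * N, Nat.mul_pos hM hN, ?_⟩
  have hy' : (F ^ (M * N)) y = (Q ^ i) ^ (M * N) • y := by
    rw [pow_mul, pow_mul, Module.End.pow_apply]
    exact Pool.Agent.W534.iterate_eig (fun a x => map_smul (F ^ M) a x) hy N
  rw [← hQi, killed_tmul hy', mul_comm M N, killed_mul hv, TensorProduct.tmul_zero, smul_zero]

/-- The killed vectors of a given degree are combinations. -/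
lemma killed_combination {A : ℕ → Set H}
    (hsplit : ∀ x : H ⊗[K] V, Killed (TensorProduct.map F G) (Q ^ c) b x →
      x ∈ Submodule.span K {w | ∃ (i : ℕ) (y : H) (v : V), y ∈ A i ∧
        Killed G (Q ^ (c - i)) b v ∧ w = y ⊗ₜ v})
    (hA : ∀ i, ∀ y ∈ A i, y ∈ Submodule.span K {z | ∃ k, d k = i ∧ z = e k}) {x : H ⊗[K] V}
    (hx : Killed (TensorProduct.map F G) (Q ^ c) b x) :
    ∃ v : κ → V, (∀ k, Killed G (Q ^ (c - d k)) b (v k)) ∧ x = ∑ k, e k ⊗ₜ[K] v k := by
  have h1 := hsplit x hx
  clear hx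
  induction h1 using Submodule.span_induction with
  | mem x hx =>
    obtain ⟨i, y, v, hy, hv, rfl⟩ := hx
    have h2 := hA i y hy
    clear hy
    induction h2 using Submodule.span_induction with
    | mem y hy =>
      obtain ⟨k, rfl, rfl⟩ := hy
      refine ⟨Pi.single k v, fun l => ?_, ?_⟩
      · by_cases h : l = k
        · subst h
          rw [Pi.single_eq_same]
          exact hv
        · rw [Pi.single_eq_of_ne h]
          exact killed_zero
      · rw [Finset.sum_eq_single k, Pi.single_eq_same]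
        · intro z _ hz
          rw [Pi.single_eq_of_ne hz, TensorProduct.tmul_zero]
        · intro h
          exact absurd (Finset.mem_univ _) h
    | zero => exact ⟨0, fun k => killed_zero, by simp⟩
    | add y z _ _ hy hz =>
      obtain ⟨w, hw1, hw⟩ := hy
      obtain ⟨w', hw1', hw'⟩ := hz
      exact ⟨w + w', fun k => (hw1 k).add (hw1' k), by
        simp [TensorProduct.add_tmul, TensorProduct.tmul_add, Finset.sum_add_distrib, hw, hw']⟩
    | smul r y _ hy =>
      obtain ⟨w, hw1, hw⟩ := hy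
      refine ⟨r • w, fun k => (hw1 k).smul r, ?_⟩
      rw [← TensorProduct.smul_tmul', hw, Finset.smul_sum]
      exact Finset.sum_congr rfl fun y _ => by rw [Pi.smul_apply, TensorProduct.tmul_smul]
  | zero => exact ⟨0, fun k => killed_zero, by simp⟩
  | add y z _ _ hy hz =>
    obtain ⟨w, hw1, hw⟩ := hy
    obtain ⟨w', hw1', hw'⟩ := hz
    exact ⟨w + w', fun k => (hw1 k).add (hw1' k), by
      simp [TensorProduct.tmul_add, Finset.sum_add_distrib, hw, hw']⟩
  | smul r y _ hy =>
    obtain ⟨w, hw1, hw⟩ := hy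
    refine ⟨r • w, fun k => (hw1 k).smul r, ?_⟩
    rw [hw, Finset.smul_sum]
    exact Finset.sum_congr rfl fun y _ => by rw [Pi.smul_apply, TensorProduct.tmul_smul]

/-- A functional which vanishes on a subspace. -/
lemma lid_zero {S : Submodule K H} {f : H →ₗ[K] K} (hf : ∀ y ∈ S, f y = 0) {x : H ⊗[K] V}
    (hx : x ∈ LinearMap.range (S.subtype.rTensor V)) :
    TensorProduct.lid K V (LinearMap.rTensor V f x) = 0 := by
  obtain ⟨z, rfl⟩ := hx
  rw [← LinearMap.comp_apply (LinearMap.rTensor V f), ← LinearMap.rTensor_comp]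
  have h : f ∘ₗ S.subtype = 0 := by
    ext y
    exact hf y y.2
  rw [h, LinearMap.rTensor_zero, LinearMap.zero_apply, map_zero]

lemma tmul_mem {S : Submodule K H} {y : H} (hy : y ∈ S) (v : V) :
    y ⊗ₜ[K] v ∈ LinearMap.range (S.subtype.rTensor V) :=
  ⟨(⟨y, hy⟩ : S) ⊗ₜ v, by rw [LinearMap.rTensor_tmul]; rfl⟩

/-- The combinations of the `e k`, `d k = i`, with coefficients in `L`. -/
noncomputable def psi (e : κ → H) (d : κ → ℕ) (i : ℕ) (L : Submodule K V) :
    ({k // d k = i} → L) →ₗ[K] H ⊗[K] V where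
  toFun v := ∑ k, e k.1 ⊗ₜ[K] (v k : V)
  map_add' v w := by
    rw [← Finset.sum_add_distrib]
    exact Finset.sum_congr rfl fun k _ => by
      rw [Pi.add_apply, Submodule.coe_add, TensorProduct.tmul_add]
  map_smul' r v := by
    rw [Finset.smul_sum]
    exact Finset.sum_congr rfl fun k _ => by
      rw [Pi.smul_apply, Submodule.coe_smul, TensorProduct.tmul_smul]; rfl

lemma psi_injective (hdual : ∀ k l, φ l (e k) = if k = l then 1 else 0) (i : ℕ)
    (L : Submodule K V) : Function.Injective (psi e d i L) := by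
  intro v w hvw
  have key : ∀ (v : {k // d k = i} → L) (l : {k // d k = i}),
      TensorProduct.lid K V (LinearMap.rTensor V (φ l.1) (psi e d i L v)) = v l := by
    intro v l
    change TensorProduct.lid K V (LinearMap.rTensor V (φ l.1) (∑ k, e k.1 ⊗ₜ[K] (v k : V))) = _
    rw [map_sum, map_sum, Finset.sum_eq_single l]
    · rw [LinearMap.rTensor_tmul, TensorProduct.lid_tmul, hdual, if_pos rfl, one_smul]
    · intro k _ hkl
      rw [LinearMap.rTensor_tmul, TensorProduct.lid_tmul, hdual,
        if_neg fun h => hkl (Subtype.ext h), zero_smul]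
    · intro h0
      exact absurd (Finset.mem_univ _) h0
  funext l
  apply Subtype.ext
  rw [← key v l, ← key w l, hvw]

end

end Pool.Agent.H28.SS
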